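import Pool.Agent.H34.CT.Defs

/-!
# Simply connected triangle complexes and cocycles

`K.IsCoc c`: `c : X → X → H` is a cocycle on the edges with values in the group `H`.

`coc_of_sc`: if `K` is simply connected, every cocycle is a coboundary. Proof: for a walk `p` let `val c p` be the product
of the `c` along `p`; it is invariant under homotopy (induction on `Htpy`). Choose walks `τ x` from a base point `x₀` to `x`
(connectedness) and put `f x = val c (τ x)`. For an edge `x y` the closed walk `τ x · (x y) · (τ y)⁻¹` is null homotopic, so
`f x * c x y * (f y)⁻¹ = 1` (`val c p.reverse = (val c p)⁻¹` as `c x y * c y x = 1` for edges).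

`sc_of_coc`: conversely. Let `Π = Walk a a / Htpy`, a group with `[p][q] = [p.append q]` and `[p]⁻¹ = [p.reverse]`
(`p.append p.reverse ~ nil` by induction on `p` with `Htpy.back`; `Htpy p q → Htpy p.reverse q.reverse` by induction).
Choose walks `τ x : Walk a x` and put `c x y = [τ x · (x y) · (τ y).reverse]` for edges, `1` otherwise. It is a cocycle:
so `c x y = (f x)⁻¹ * f y`. For every walk `p : x → y` one gets `[τ x · p · (τ y).reverse] = (f x)⁻¹ * f y` by induction on
`p`; for a closed walk `p` at `x` the class of `τ x · p · (τ x).reverse` is `1`, so `p ~ nil`.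
-/

set_option autoImplicit false

namespace Pool.Agent.H34.CT

namespace TriComplex

variable {X : Type} (K : TriComplex X)

/-- cocycles on the edges, with values in a group -/
structure IsCoc {H : Type} [Group H] (c : X → X → H) : Prop where
  /-- opposite edges -/
  back : ∀ x y, K.graph.Adj x y → c x y * c y x = 1
  /-- triangles -/
  tri : ∀ x y z, K.Tri x y z → c x y * c y z = c x z

theorem coc_of_sc (hK : K.SimplyConnected) {H : Type} [Group H] (c : X → X → H)
    (hc : K.IsCoc c) : ∃ f : X → H, ∀ x y, K.graph.Adj x y → c x y = (f x)⁻¹ * f y := by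
  sorry

theorem sc_of_coc (hK : K.graph.Connected)
    (h : ∀ (H : Type) [Group H] (c : X → X → H), K.IsCoc c →
      ∃ f : X → H, ∀ x y, K.graph.Adj x y → c x y = (f x)⁻¹ * f y) : K.SimplyConnected := by
  sorry

end TriComplex

end Pool.Agent.H34.CT
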