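import Pool.Agent.H98.FJ.Closed

/-!
# Euclidean triangle complexes with nonpositive curvature

Definitions for the theorem on groups acting with finite stabilisers on 2-dimensional CAT(0) complexes
(MP_2a547c_gt).
-/

set_option autoImplicit false

namespace Pool.Agent.H34.CT

/-- a simplicial complex of dimension at most 2 (edges: `graph`, triangles: `Tri`), whose triangles are Euclidean, with
edge lengths `len` -/
structure TriComplex (X : Type) where
  /-- the 1-skeleton -/
  graph : SimpleGraph X
  /-- `x`, `y`, `z` are the vertices of a triangle -/
  Tri : X → X → X → Prop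
  /-- symmetry -/
  swap : ∀ x y z, Tri x y z → Tri y x z
  /-- symmetry -/
  rot : ∀ x y z, Tri x y z → Tri y z x
  /-- the sides of a triangle are edges -/
  adj : ∀ x y z, Tri x y z → graph.Adj x y
  /-- the lengths of the edges -/
  len : X → X → ℝ
  /-- symmetry -/
  len_comm : ∀ x y, len x y = len y x
  /-- the edges have positive length -/
  len_pos : ∀ x y, graph.Adj x y → 0 < len x y
  /-- the strict triangle inequality -/
  len_lt : ∀ x y z, Tri x y z → len x z < len x y + len y z

namespace TriComplex

variable {X : Type} (K : TriComplex X)

/-- the angle at `x` of the Euclidean triangle `x y z` -/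
noncomputable def angle (x y z : X) : ℝ :=
  Real.arccos ((K.len x y ^ 2 + K.len x z ^ 2 - K.len y z ^ 2) / (2 * K.len x y * K.len x z))

/-- nonpositive curvature (the link condition): every simple closed edge path `y 0, y 1, …` in the link of a vertex `x`
has length at least `2π`, where the edges of the link have the angles of the triangles at `x` as lengths -/
def NPC : Prop :=
  ∀ (x : X) (n : ℕ) (y : Fin (n + 3) → X), Function.Injective y →
    (∀ i, K.Tri x (y i) (y (i + 1))) → 2 * Real.pi ≤ ∑ i, K.angle x (y i) (y (i + 1))

/-- homotopy of edge paths: the smallest congruence with `a b a ~ a` for the edges `a b` and `a b c ~ a c` for the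
triangles `a b c` -/
inductive Htpy : ∀ {a b : X}, K.graph.Walk a b → K.graph.Walk a b → Prop
  /-- reflexive -/
  | refl {a b : X} (p : K.graph.Walk a b) : Htpy p p
  /-- symmetric -/
  | symm {a b : X} {p q : K.graph.Walk a b} : Htpy p q → Htpy q p
  /-- transitive -/
  | trans {a b : X} {p q r : K.graph.Walk a b} : Htpy p q → Htpy q r → Htpy p r
  /-- compatible with the composition -/
  | append {a b c : X} {p p' : K.graph.Walk a b} {q q' : K.graph.Walk b c} :
      Htpy p p' → Htpy q q' → Htpy (p.append q) (p'.append q')
  /-- going forth and back along an edge -/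
  | back {a b : X} (h : K.graph.Adj a b) :
      Htpy (SimpleGraph.Walk.cons h (SimpleGraph.Walk.cons h.symm SimpleGraph.Walk.nil))
        SimpleGraph.Walk.nil
  /-- across a triangle -/
  | tri {a b c : X} (h : K.Tri a b c) (hab : K.graph.Adj a b) (hbc : K.graph.Adj b c)
      (hac : K.graph.Adj a c) :
      Htpy (SimpleGraph.Walk.cons hab (SimpleGraph.Walk.cons hbc SimpleGraph.Walk.nil))
        (SimpleGraph.Walk.cons hac SimpleGraph.Walk.nil)

/-- nonempty, connected and simply connected -/
def SimplyConnected : Prop :=
  K.graph.Connected ∧ ∀ (a : X) (p : K.graph.Walk a a), K.Htpy p SimpleGraph.Walk.nil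

/-- the group acts by automorphisms preserving the edge lengths -/
structure Acts (G : Type) [Group G] [MulAction G X] : Prop where
  /-- edges go to edges -/
  adj : ∀ (g : G) (x y : X), K.graph.Adj x y → K.graph.Adj (g • x) (g • y)
  /-- triangles go to triangles -/
  tri : ∀ (g : G) (x y z : X), K.Tri x y z → K.Tri (g • x) (g • y) (g • z)
  /-- the lengths are invariant -/
  len : ∀ (g : G) (x y : X), K.len (g • x) (g • y) = K.len x y

/-- there are finitely many orbits of vertices, edges and triangles: for some finite set `S` of vertices each vertex,
edge and triangle can be moved by the group to one whose vertices are in `S` -/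
def Cocompact (G : Type) [Group G] [MulAction G X] : Prop :=
  ∃ S : Finset X, (∀ x, ∃ g : G, g • x ∈ S) ∧
    (∀ x y, K.graph.Adj x y → ∃ g : G, g • x ∈ S ∧ g • y ∈ S) ∧
    ∀ x y z, K.Tri x y z → ∃ g : G, g • x ∈ S ∧ g • y ∈ S ∧ g • z ∈ S

end TriComplex

/-- the class is closed under directed colimits and contains every group which acts with finite vertex stabilisers and
finitely many orbits of cells on a simply connected triangle complex of nonpositive curvature -/
structure CatClass (C : (G : Type) → [Group G] → Prop) : Prop where
  /-- closed under directed colimits -/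
  colim : ∀ (ι : Type) [Preorder ι] (G : ι → Type) [∀ i, Group (G i)]
    (f : ∀ i j, i ≤ j → (G i →* G j)) (H : Type) [Group H] (φ : ∀ i, G i →* H),
    Pool.Agent.H98.FJ.IsColimit f φ → (∀ i, C (G i)) → C H
  /-- proper and cocompact actions on 2-dimensional CAT(0) complexes -/
  cat : ∀ (G : Type) [Group G] (X : Type) [MulAction G X] (K : TriComplex X), K.NPC →
    K.SimplyConnected → K.Acts G → (∀ x : X, Finite (MulAction.stabilizer G x)) →
    K.Cocompact G → C G

end Pool.Agent.H34.CT
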